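import Pool.Agent.Helper50.KP.Goals

/-!
# Project KP (MP_5a63b6_lc), packet CIT: true circuits
-/

set_option autoImplicit false

namespace Pool.Agent.Helper49.KP

open Pool.Agent.Helper50.KP

theorem pairs_inp (m : ℕ) (x : ℕ → Bool) (b : Bool) (l : ℕ) :
    pairs m x b (.inp l) = if x l = b then [(4 * m - 2, 4 * m - 1)] else [] := rfl

theorem pairs_nt (m : ℕ) (x : ℕ → Bool) (j k : ℕ) : pairs m x true (.nand j k) =
    [(4 * j + 2, 4 * k + 3), (4 * j + 2, 4 * k + 1), (4 * j, 4 * k + 3)] := rfl

theorem pairs_nf (m : ℕ) (x : ℕ → Bool) (j k : ℕ) : pairs m x false (.nand j k) =
    [(4 * j, 4 * k + 1)] := rfl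

theorem gCIT (hVAL : Pool.Agent.Helper50.KP.VAL) : Pool.Agent.Helper50.KP.CIT := by
  intro m C x hm hC hv l hl hs
  by_contra hcon
  have h : ∀ v ∈ l, ∃ e ∈ pairs m x (decide (v % 4 < 2)) (C (v / 4)), e.1 ∈ l ∧ e.2 ∈ l := by
    intro v hvl
    by_contra h1
    apply hcon
    refine ⟨v, hvl, fun e he => ?_⟩
    by_contra h2
    apply h1
    refine ⟨e, he, ?_, ?_⟩
    · by_contra h3
      exact h2 (Or.inl h3)
    · by_contra h3
      exact h2 (Or.inr h3)
  have hlt : ∀ v ∈ l, v < 4 * m := fun v hvl => List.mem_range.1 (hs.subset hvl)
  by_cases hB : 4 * m - 2 ∈ l ∧ 4 * m - 1 ∈ l
  · have key : ∀ i, i < m → ∀ v ∈ l, v / 4 = i → val C x i = decide (v % 4 < 2) := by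
      intro i
      induction i using Nat.strong_induction_on with
      | _ i ih =>
        intro him v hvl hvi
        obtain ⟨e, he, he1, he2⟩ := h v hvl
        rw [hvi] at he
        cases hCi : C i with
        | inp l' =>
          rw [hCi, pairs_inp] at he
          split_ifs at he with h1
          · rw [hVAL.1 C x i l' hCi, h1]
          · exact absurd he List.not_mem_nil
        | nand j k =>
          rw [hCi] at he
          obtain ⟨hj, hk⟩ := hC i him j k hCi
          rw [hVAL.2 C x i j k hCi hj hk]
          cases hb : decide (v % 4 < 2) with
          | true =>
            rw [hb, pairs_nt] at he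
            rw [List.mem_cons, List.mem_cons, List.mem_singleton] at he
            rcases he with he | he | he
            · subst he
              have h1 := ih j hj (by omega) (4 * j + 2) he1 (by omega)
              rw [h1, decide_eq_false (by omega)]
              rfl
            · subst he
              have h1 := ih j hj (by omega) (4 * j + 2) he1 (by omega)
              rw [h1, decide_eq_false (by omega)]
              rfl
            · subst he
              have h1 := ih k hk (by omega) (4 * k + 3) he2 (by omega)
              rw [h1, decide_eq_false (by omega), Bool.and_false]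
              rfl
          | false =>
            rw [hb, pairs_nf] at he
            rw [List.mem_singleton] at he
            subst he
            have h1 := ih j hj (by omega) (4 * j) he1 (by omega)
            have h2 := ih k hk (by omega) (4 * k + 1) he2 (by omega)
            rw [h1, h2, decide_eq_true (by omega), decide_eq_true (by omega)]
            rfl
    have h1 := key (m - 1) (by omega) (4 * m - 2) hB.1 (by omega)
    rw [hv, decide_eq_false (by omega)] at h1
    exact Bool.false_ne_true h1.symm
  · have key : ∀ i, i < m → ∀ v ∈ l, v / 4 ≠ i := by
      intro i
      induction i using Nat.strong_induction_on with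
      | _ i ih =>
        intro him v hvl hvi
        obtain ⟨e, he, he1, he2⟩ := h v hvl
        rw [hvi] at he
        cases hCi : C i with
        | inp l' =>
          rw [hCi, pairs_inp] at he
          split_ifs at he with h1
          · rw [List.mem_singleton] at he
            subst he
            exact hB ⟨he1, he2⟩
          · exact absurd he List.not_mem_nil
        | nand j k =>
          rw [hCi] at he
          obtain ⟨hj, hk⟩ := hC i him j k hCi
          cases hb : decide (v % 4 < 2) with
          | true =>
            rw [hb, pairs_nt] at he
            rw [List.mem_cons, List.mem_cons, List.mem_singleton] at he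
            rcases he with he | he | he
            · subst he
              exact ih j hj (by omega) (4 * j + 2) he1 (by omega)
            · subst he
              exact ih j hj (by omega) (4 * j + 2) he1 (by omega)
            · subst he
              exact ih k hk (by omega) (4 * k + 3) he2 (by omega)
          | false =>
            rw [hb, pairs_nf] at he
            rw [List.mem_singleton] at he
            subst he
            exact ih j hj (by omega) (4 * j) he1 (by omega)
    obtain ⟨v, hvl⟩ := List.exists_mem_of_ne_nil l hl
    exact key (v / 4) (by have := hlt v hvl; omega) v hvl rfl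

end Pool.Agent.Helper49.KP
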